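import Pool.Agent.TTT.Final3
import Pool.Agent.TTT.Weak
import Pool.Agent.TTT.Draw

/-!
# The `4^4` Tic-Tac-Toe lies in the open range and is won by the first player (Class 2)
-/

namespace Pool.Agent.Results.MP_0f0afc_co.FourFourWin

open Pool.Agent.TTT

theorem result :
    (∀ D, 4 ≤ D → WeakWins (IsLine 4 D) ∅ ∅) ∧
    (∀ d, 1 ≤ d → d < 5 → ∃ c, IsDrawing 4 d c) ∧
    FirstWins (IsLine 4 4) ∅ ∅ :=
  ⟨fun D hD => weak_up 4 4 (by norm_num) (by norm_num) four_four D hD,
    fun d h1 h2 => exists_drawing d h1 (by omega), four_four⟩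

end Pool.Agent.Results.MP_0f0afc_co.FourFourWin
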