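import Mathlib
import Pool.Agent.HJL.Colour
import Pool.Agent.HJL.Seeds

/-!
Proper halving colourings of `[n]^d` for all `d` below an exponential bound in `n`.
-/

namespace Pool.Agent.Results.MP_0f0afc_co.HalvingDimension

open HJL Pool.Agent.TTT

theorem result :
    (∀ n d a b c : ℕ, 5 * a + 6 * b + c < n / 2 → d < 2 * (503 ^ a * 1747 ^ b * 2 ^ c) →
      ∃ col : (Fin d → Fin n) → Bool, IsDrawing n d col) ∧
    (∀ n d : ℕ, 42 ≤ n → d ^ 5 < 2 ^ 5 * 503 ^ (n / 2 - 1) →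
      ∃ col : (Fin d → Fin n) → Bool, IsDrawing n d col) := by
  have h1 : ∀ n d a b c : ℕ, 5 * a + 6 * b + c < n / 2 →
      d < 2 * (503 ^ a * 1747 ^ b * 2 ^ c) →
      ∃ col : (Fin d → Fin n) → Bool, IsDrawing n d col := by
    intro n d a b c hs hd
    have g1 := good_pow good_503 (by norm_num) a
    have g2 := good_pow good_1747 (by norm_num) b
    have g3 := good_pow good_two (by norm_num) c
    have g4 := good_mul (good_mul g1 g2 (by positivity)) g3 (by positivity)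
    exact drawing_of_good g4 (by omega) hd
  refine ⟨h1, fun n d hn hd => ?_⟩
  obtain ⟨m, b, hb, hm, hmb⟩ : ∃ m b, b ≤ 4 ∧ 4 ≤ m ∧ n / 2 - 1 = 5 * m + b :=
    ⟨(n / 2 - 1) / 5, (n / 2 - 1) % 5, by omega, by omega, by omega⟩
  apply h1 n d (m - b) b 0 (by omega)
  apply lt_of_pow_lt_pow_left₀ 5 (by positivity)
  refine hd.trans_le ?_
  rw [mul_pow, pow_zero, mul_one, mul_pow, hmb]
  apply Nat.mul_le_mul_left
  have h2 : (503 : ℕ) ^ 6 ≤ 1747 ^ 5 := by norm_num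
  calc (503 : ℕ) ^ (5 * m + b) = (503 ^ (m - b)) ^ 5 * (503 ^ 6) ^ b := by
        rw [← pow_mul, ← pow_mul, ← pow_add]
        congr 1
        omega
    _ ≤ (503 ^ (m - b)) ^ 5 * (1747 ^ 5) ^ b :=
        Nat.mul_le_mul_left _ (Nat.pow_le_pow_left h2 b)
    _ = (503 ^ (m - b)) ^ 5 * (1747 ^ b) ^ 5 := by
        rw [← pow_mul 1747 5 b, ← pow_mul 1747 b 5, mul_comm 5 b]

end Pool.Agent.Results.MP_0f0afc_co.HalvingDimension
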