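import Mathlib
import Pool.Agent.HJH.Main

/-!
The number `HJ*_{1/2}(n)` lies between `HJ(n - 1) + 1` and `HJ(n)`.
-/

set_option autoImplicit false

namespace Pool.Agent.Results.MP_0f0afc_co.HalvingNumber

open Pool.Agent.TTT Pool.Agent.HJH

/-- (1) If `n ≥ 3` and `[n - 1]^e` has a proper 2-colouring, then `[n]^(e + 1)` has a proper
halving 2-colouring. (2) `HJ(n - 1) < HJ*_{1/2}(n) ≤ HJ(n)` for all `n ≥ 3`. (3) For `n ≥ 2` the
cube `[n]^d` has a proper 2-colouring if and only if `d < HJ(n)`. -/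
theorem result :
    (∀ n e : ℕ, 3 ≤ n → (∃ b : (Fin e → Fin (n - 1)) → Bool, IsProper (n - 1) e b) →
      ∃ c : (Fin (e + 1) → Fin n) → Bool, IsDrawing n (e + 1) c) ∧
    (∀ n : ℕ, 3 ≤ n → HJ (n - 1) < HJhalf n ∧ HJhalf n ≤ HJ n) ∧
    (∀ n d : ℕ, 2 ≤ n → ((∃ c : (Fin d → Fin n) → Bool, IsProper n d c) ↔ d < HJ n)) :=
  ⟨fun _ _ hn h => drawing_of_proper hn h, fun _ hn => ⟨lt_half hn, half_le (by omega)⟩,
    fun _ d hn => proper_iff_lt hn d⟩

end Pool.Agent.Results.MP_0f0afc_co.HalvingNumber
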