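import Mathlib
import Pool.Agent.WWX.Final

/-!
The exact order of the Weak Win threshold of the `n^d` Tic-Tac-Toe:
`ww(n) = (log 2 / 2 + o(1)) n² / log n`.
-/

namespace Pool.Agent.Results.MP_0f0afc_co.WeakWinAsymptotics

open Filter WW

/-- `ww n · log n / n²` tends to `log 2 / 2`.  Moreover, for every `ε > 0` and all large `n`:
there is no Weak Win on `[n]^d` for any `d ≤ (log 2 / 2 - ε) n² / log n`, and there is a Weak Win
on `[n]^d` for every `d ≥ (log 2 / 2 + ε) n² / log n`. -/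
theorem result :
    Tendsto (fun n : ℕ => (ww n : ℝ) * Real.log n / (n : ℝ) ^ 2) atTop
      (nhds (Real.log 2 / 2)) ∧
    ∀ ε : ℝ, 0 < ε → ∀ᶠ n : ℕ in atTop,
      (∀ d : ℕ, (d : ℝ) ≤ (Real.log 2 / 2 - ε) * (n : ℝ) ^ 2 / Real.log n →
        ¬ WeakWins (IsLine n d) ∅ ∅) ∧
      (∀ d : ℕ, (Real.log 2 / 2 + ε) * (n : ℝ) ^ 2 / Real.log n ≤ (d : ℝ) →
        WeakWins (IsLine n d) ∅ ∅) := by
  have key : ∀ ε : ℝ, 0 < ε → ∀ᶠ n : ℕ in atTop,
      (∀ d : ℕ, (d : ℝ) ≤ (Real.log 2 / 2 - ε) * (n : ℝ) ^ 2 / Real.log n →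
        ¬ WeakWins (IsLine n d) ∅ ∅) ∧
      (∀ d : ℕ, (Real.log 2 / 2 + ε) * (n : ℝ) ^ 2 / Real.log n ≤ (d : ℝ) →
        WeakWins (IsLine n d) ∅ ∅) := by
    intro ε hε
    filter_upwards [WWX.strong_draw_asym2 hε, geometric hε] with n h1 h2
    exact ⟨h1, h2.2.2⟩
  refine ⟨?_, key⟩
  rw [Metric.tendsto_atTop']
  intro ε hε
  have hε2 : (0 : ℝ) < ε / 2 := by positivity
  have hε4 : (0 : ℝ) < ε / 4 := by positivity
  obtain ⟨N, hN⟩ := eventually_atTop.1 (key (ε / 4) hε4)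
  refine ⟨max N (max 2 ⌈4 / ε⌉₊), fun n hn => ?_⟩
  have hnN : N ≤ n := (le_max_left _ _).trans hn.le
  have h2 : 2 ≤ n := (le_max_left _ _).trans ((le_max_right _ _).trans hn.le)
  have h2' : (2 : ℝ) ≤ n := by exact_mod_cast h2
  have hn' : 4 / ε ≤ n :=
    (Nat.le_ceil _).trans (by exact_mod_cast (le_max_right _ _).trans ((le_max_right _ _).trans hn.le))
  have hlog : 0 < Real.log n := Real.log_pos (by linarith)
  have hlog2 : Real.log n ≤ n := (Real.log_le_sub_one_of_pos (by linarith)).trans (by linarith)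
  have hnpos : (0 : ℝ) < n := by linarith
  have hn2pos : (0 : ℝ) < (n : ℝ) ^ 2 := by positivity
  obtain ⟨hlow, hup⟩ := hN n hnN
  set b : ℝ := (Real.log 2 / 2 + ε / 4) * (n : ℝ) ^ 2 / Real.log n with hb
  have hl2 : 0 < Real.log 2 := Real.log_pos (by norm_num)
  have hb0 : 0 ≤ b := by positivity
  have hmem : ⌈b⌉₊ ∈ {d₀ | ∀ d, d₀ ≤ d → WeakWins (IsLine n d) ∅ ∅} := by
    intro d hd
    exact hup d ((Nat.le_ceil _).trans (by exact_mod_cast hd))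
  have hmem' : ww n ∈ {d₀ | ∀ d, d₀ ≤ d → WeakWins (IsLine n d) ∅ ∅} := Nat.sInf_mem ⟨_, hmem⟩
  -- the lower bound
  have hlo : (Real.log 2 / 2 - ε / 4) * (n : ℝ) ^ 2 / Real.log n < ww n := by
    by_contra hcon
    rw [not_lt] at hcon
    exact hlow (ww n) hcon (hmem' (ww n) le_rfl)
  -- the upper bound
  have h1 : (ww n : ℝ) ≤ ⌈b⌉₊ := by exact_mod_cast Nat.sInf_le hmem
  have h3 : (⌈b⌉₊ : ℝ) ≤ b + 1 := (Nat.ceil_lt_add_one hb0).le
  have hhi : (ww n : ℝ) ≤ b + 1 := h1.trans h3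
  rw [Real.dist_eq, abs_lt]
  constructor
  · rw [div_lt_iff₀ hlog] at hlo
    have h4 : Real.log 2 / 2 - ε / 4 < (ww n : ℝ) * Real.log n / (n : ℝ) ^ 2 := by
      rw [lt_div_iff₀ hn2pos]
      exact hlo
    linarith
  · have h5 : (ww n : ℝ) * Real.log n ≤ (Real.log 2 / 2 + ε / 4) * (n : ℝ) ^ 2 + Real.log n := by
      calc (ww n : ℝ) * Real.log n ≤ (b + 1) * Real.log n := by gcongr
        _ = b * Real.log n + Real.log n := by ring
        _ = (Real.log 2 / 2 + ε / 4) * (n : ℝ) ^ 2 + Real.log n := by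
          rw [hb, div_mul_cancel₀ _ hlog.ne']
    have h6 : Real.log n ≤ ε / 4 * (n : ℝ) ^ 2 := by
      have h7 : 1 ≤ ε / 4 * n := by
        rw [div_le_iff₀ hε] at hn'
        linarith
      calc Real.log n ≤ n := hlog2
        _ = 1 * n := by ring
        _ ≤ ε / 4 * n * n := by gcongr
        _ = ε / 4 * (n : ℝ) ^ 2 := by ring
    have h8 : (ww n : ℝ) * Real.log n / (n : ℝ) ^ 2 ≤ Real.log 2 / 2 + ε / 2 := by
      rw [div_le_iff₀ hn2pos]
      calc (ww n : ℝ) * Real.log n ≤ (Real.log 2 / 2 + ε / 4) * (n : ℝ) ^ 2 + Real.log n := h5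
        _ ≤ (Real.log 2 / 2 + ε / 4) * (n : ℝ) ^ 2 + ε / 4 * (n : ℝ) ^ 2 := by gcongr
        _ = (Real.log 2 / 2 + ε / 2) * (n : ℝ) ^ 2 := by ring
    linarith

end Pool.Agent.Results.MP_0f0afc_co.WeakWinAsymptotics
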